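import Pool.Agent.Inc.Diff

set_option autoImplicit false

/-! The `q`-van der Corput step for incomplete Kloosterman sums, with a periodic factor. -/

namespace Pool.Agent.Inc

open Finset Pool.Agent.Weil

variable {L : ℕ} [NeZero L]

theorem pair_sum_le (J : ℕ) (φ : ℕ → ℝ) (hφ : ∀ i, 0 ≤ φ i) (j : ℕ) (hj : j ∈ Finset.Icc 1 J) :
    ∑ i ∈ (Finset.Icc 1 J).erase j, φ (((i : ℤ) - j).natAbs) ≤ 2 * ∑ i ∈ Finset.Icc 1 J, φ i := by
  rw [Finset.mem_Icc] at hj
  have h1 : (Finset.Icc 1 J).erase j ⊆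
      (Finset.Icc 1 J).filter (fun i => i < j) ∪ (Finset.Icc 1 J).filter (fun i => j < i) := by
    intro i hi
    rw [Finset.mem_erase, Finset.mem_Icc] at hi
    rw [Finset.mem_union, Finset.mem_filter, Finset.mem_filter, Finset.mem_Icc]
    omega
  have h2 : ∑ i ∈ (Finset.Icc 1 J).filter (fun i => i < j), φ (((i : ℤ) - j).natAbs) ≤
      ∑ i ∈ Finset.Icc 1 J, φ i := by
    rw [← Finset.sum_image (f := φ) (g := fun i : ℕ => ((i : ℤ) - j).natAbs)
      (s := (Finset.Icc 1 J).filter (fun i => i < j))]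
    · refine Finset.sum_le_sum_of_subset_of_nonneg ?_ fun i _ _ => hφ i
      intro m hm
      rw [Finset.mem_image] at hm
      obtain ⟨i, hi, rfl⟩ := hm
      rw [Finset.mem_filter, Finset.mem_Icc] at hi
      rw [Finset.mem_Icc]
      omega
    · intro i hi i' hi' h
      rw [Finset.mem_coe, Finset.mem_filter] at hi hi'
      simp only at h
      omega
  have h3 : ∑ i ∈ (Finset.Icc 1 J).filter (fun i => j < i), φ (((i : ℤ) - j).natAbs) ≤
      ∑ i ∈ Finset.Icc 1 J, φ i := by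
    rw [← Finset.sum_image (f := φ) (g := fun i : ℕ => ((i : ℤ) - j).natAbs)
      (s := (Finset.Icc 1 J).filter (fun i => j < i))]
    · refine Finset.sum_le_sum_of_subset_of_nonneg ?_ fun i _ _ => hφ i
      intro m hm
      rw [Finset.mem_image] at hm
      obtain ⟨i, hi, rfl⟩ := hm
      rw [Finset.mem_filter, Finset.mem_Icc] at hi
      rw [Finset.mem_Icc]
      omega
    · intro i hi i' hi' h
      rw [Finset.mem_coe, Finset.mem_filter] at hi hi'
      simp only at h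
      omega
  calc ∑ i ∈ (Finset.Icc 1 J).erase j, φ (((i : ℤ) - j).natAbs)
      ≤ ∑ i ∈ (Finset.Icc 1 J).filter (fun i => i < j) ∪
          (Finset.Icc 1 J).filter (fun i => j < i), φ (((i : ℤ) - j).natAbs) :=
        Finset.sum_le_sum_of_subset_of_nonneg h1 fun i _ _ => hφ _
    _ ≤ ∑ i ∈ (Finset.Icc 1 J).filter (fun i => i < j), φ (((i : ℤ) - j).natAbs) +
        ∑ i ∈ (Finset.Icc 1 J).filter (fun i => j < i), φ (((i : ℤ) - j).natAbs) := by
        rw [← Finset.sum_union_inter]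
        have : 0 ≤ ∑ i ∈ (Finset.Icc 1 J).filter (fun i => i < j) ∩
            (Finset.Icc 1 J).filter (fun i => j < i), φ (((i : ℤ) - j).natAbs) :=
          Finset.sum_nonneg fun i _ => hφ _
        linarith
    _ ≤ 2 * ∑ i ∈ Finset.Icc 1 J, φ i := by linarith

theorem gcd_mul_le (L k : ℕ) (hkL : Nat.Coprime k L) (c : ℤ) (d : ℤ) (hL0 : 0 < L) :
    Real.sqrt (L.gcd (c * (k * d)).natAbs) ≤
      Real.sqrt (L.gcd c.natAbs) * Real.sqrt (d.natAbs.gcd L) := by
  rw [← Real.sqrt_mul (Nat.cast_nonneg _)]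
  apply Real.sqrt_le_sqrt
  have h1 : L.gcd (c * (k * d)).natAbs ∣ L.gcd c.natAbs * (L.gcd k * L.gcd d.natAbs) := by
    rw [Int.natAbs_mul, Int.natAbs_mul, Int.natAbs_natCast]
    exact (Nat.gcd_mul_right_dvd_mul_gcd _ _ _).trans
      (Nat.mul_dvd_mul (dvd_refl _) (Nat.gcd_mul_right_dvd_mul_gcd _ _ _))
  have h2 : L.gcd k = 1 := by rw [Nat.gcd_comm]; exact hkL
  rw [h2, one_mul] at h1
  have h3 : 0 < L.gcd c.natAbs * L.gcd d.natAbs :=
    Nat.mul_pos (Nat.gcd_pos_of_pos_left _ hL0) (Nat.gcd_pos_of_pos_left _ hL0)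
  have h4 := Nat.le_of_dvd h3 h1
  rw [Nat.gcd_comm d.natAbs L]
  exact_mod_cast h4

/-- One pair of shifts. -/
theorem vdc_pair (hL : Squarefree L) (X : ℕ) (c l0 a b : ℤ) (hab : a ≤ b) (hX : b - a ≤ X)
    (W : Finset ℤ) (s t : ℤ) (hW : ∀ n, a < n + s → n + s ≤ b → n ∈ W) :
    ‖∑ n ∈ W, (if a < n + s ∧ n + s ≤ b then KL L c (n + s + l0) else 0) *
      (starRingEnd ℂ) (if a < n + t ∧ n + t ≤ b then KL L c (n + t + l0) else 0)‖ ≤
      if s = t then (X : ℝ) else 4 ^ L.primeFactors.card * Real.sqrt L *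
        ((X : ℝ) / L * Real.sqrt (L.gcd (c * (t - s)).natAbs) +
          L.divisors.card * (1 + Real.log L)) := by
  classical
  have hL1 : 1 ≤ L := Nat.pos_of_ne_zero (NeZero.ne L)
  have hLr : (0 : ℝ) < L := by exact_mod_cast hL1
  have hlog : 0 ≤ Real.log L := Real.log_natCast_nonneg L
  have h1 : ∑ n ∈ W, (if a < n + s ∧ n + s ≤ b then KL L c (n + s + l0) else 0) *
      (starRingEnd ℂ) (if a < n + t ∧ n + t ≤ b then KL L c (n + t + l0) else 0) =
      ∑ m ∈ Finset.Ioc (l0 + max a (a - (t - s))) (l0 + min b (b - (t - s))),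
        KL L c m * (starRingEnd ℂ) (KL L c (m + (t - s))) := by
    have h2 : ∀ n ∈ W, (if a < n + s ∧ n + s ≤ b then KL L c (n + s + l0) else 0) *
        (starRingEnd ℂ) (if a < n + t ∧ n + t ≤ b then KL L c (n + t + l0) else 0) =
        if (a < n + s ∧ n + s ≤ b) ∧ (a < n + t ∧ n + t ≤ b) then
          KL L c (n + s + l0) * (starRingEnd ℂ) (KL L c (n + t + l0)) else 0 := by
      intro n _
      by_cases h3 : a < n + s ∧ n + s ≤ b
      · by_cases h4 : a < n + t ∧ n + t ≤ b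
        · rw [if_pos h3, if_pos h4, if_pos ⟨h3, h4⟩]
        · rw [if_neg h4, if_neg (fun hc : (a < n + s ∧ n + s ≤ b) ∧ (a < n + t ∧ n + t ≤ b) =>
            h4 hc.2), map_zero, mul_zero]
      · rw [if_neg h3, if_neg (fun hc : (a < n + s ∧ n + s ≤ b) ∧ (a < n + t ∧ n + t ≤ b) =>
          h3 hc.1), zero_mul]
    rw [Finset.sum_congr rfl h2, ← Finset.sum_filter]
    refine Finset.sum_nbij' (fun n => n + s + l0) (fun m => m - l0 - s) ?_ ?_ ?_ ?_ ?_
    · intro n hn
      rw [Finset.mem_filter] at hn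
      rw [Finset.mem_Ioc]
      rcases max_cases a (a - (t - s)) with h | h <;> rcases min_cases b (b - (t - s)) with h' | h'
        <;> omega
    · intro m hm
      rw [Finset.mem_Ioc] at hm
      have h3 := le_max_left a (a - (t - s))
      have h4 := le_max_right a (a - (t - s))
      have h5 := min_le_left b (b - (t - s))
      have h6 := min_le_right b (b - (t - s))
      rw [Finset.mem_filter]
      refine ⟨hW _ (by omega) (by omega), ⟨by omega, by omega⟩, ⟨by omega, by omega⟩⟩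
    · intro n _; ring
    · intro m _; ring
    · intro n _
      have e : n + t + l0 = n + s + l0 + (t - s) := by ring
      rw [e]
  rw [h1]
  by_cases hle : l0 + max a (a - (t - s)) ≤ l0 + min b (b - (t - s))
  swap
  · rw [Finset.Ioc_eq_empty (by omega), Finset.sum_empty, norm_zero]
    split_ifs
    · positivity
    · positivity
  have hlen : ((l0 + min b (b - (t - s)) : ℤ) : ℝ) - ((l0 + max a (a - (t - s)) : ℤ) : ℝ) ≤ X := by
    have h3 := le_max_left a (a - (t - s))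
    have h5 := min_le_left b (b - (t - s))
    have h6 : (l0 + min b (b - (t - s))) - (l0 + max a (a - (t - s))) ≤ (X : ℤ) := by omega
    exact_mod_cast h6
  split_ifs with hst
  · refine (norm_sum_le _ _).trans ?_
    calc ∑ m ∈ Finset.Ioc (l0 + max a (a - (t - s))) (l0 + min b (b - (t - s))),
        ‖KL L c m * (starRingEnd ℂ) (KL L c (m + (t - s)))‖
        ≤ ∑ _m ∈ Finset.Ioc (l0 + max a (a - (t - s))) (l0 + min b (b - (t - s))), (1 : ℝ) := by
          refine Finset.sum_le_sum fun m _ => ?_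
          rw [norm_mul, RCLike.norm_conj]
          exact mul_le_one₀ (KL_norm_le _ _) (norm_nonneg _) (KL_norm_le _ _)
      _ ≤ X := by
          rw [Finset.sum_const, nsmul_eq_mul, mul_one, Int.card_Ioc]
          have h7 : ((((l0 + min b (b - (t - s))) - (l0 + max a (a - (t - s)))).toNat : ℤ) : ℝ) =
              (((l0 + min b (b - (t - s))) - (l0 + max a (a - (t - s))) : ℤ) : ℝ) := by
            rw [Int.toNat_of_nonneg (by omega)]
          have h8 : (((l0 + min b (b - (t - s))) - (l0 + max a (a - (t - s)))).toNat : ℝ) =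
              ((l0 + min b (b - (t - s)) : ℤ) : ℝ) - ((l0 + max a (a - (t - s)) : ℤ) : ℝ) := by
            rw [← Int.cast_sub]; exact_mod_cast h7
          rw [h8]; exact hlen
  · refine (inc_diff hL c (t - s) _ _ hle).trans ?_
    refine mul_le_mul_of_nonneg_left ?_ (by positivity)
    have h9 : (((l0 + min b (b - (t - s)) : ℤ) : ℝ) -
        ((l0 + max a (a - (t - s)) : ℤ) : ℝ)) / L ≤ (X : ℝ) / L :=
      div_le_div_of_nonneg_right hlen hLr.le
    have := mul_le_mul_of_nonneg_right h9 (Real.sqrt_nonneg (L.gcd (c * (t - s)).natAbs))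
    linarith

/-- The `q`-van der Corput step. -/
theorem vdc (hL : Squarefree L) (k X : ℕ) (hkL : Nat.Coprime k L) (hk : 1 ≤ k) (hkX : k ≤ X)
    (c l0 a b : ℤ) (hX : b - a ≤ X) (G : ℤ → ℂ) (hG : ∀ n, G (n + k) = G n)
    (hG1 : ∀ n, ‖G n‖ ≤ 1) :
    ‖∑ n ∈ Finset.Ioc a b, G n * KL L c (n + l0)‖ ^ 2 ≤
      4 * (L.divisors.card : ℝ) ^ 3 * (1 + Real.log L) *
        (X * k + (X : ℝ) ^ 2 * Real.sqrt (L.gcd c.natAbs) / Real.sqrt L + X * Real.sqrt L) := by
  classical
  have hL1 : 1 ≤ L := Nat.pos_of_ne_zero (NeZero.ne L)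
  have hLr : (0 : ℝ) < L := by exact_mod_cast hL1
  have hlog : 0 ≤ Real.log L := Real.log_natCast_nonneg L
  have hsL : 0 < Real.sqrt L := Real.sqrt_pos.2 hLr
  have hτ1 : (1 : ℝ) ≤ L.divisors.card := by
    have : 0 < L.divisors.card := Finset.card_pos.2 ⟨1, Nat.one_mem_divisors.2 (NeZero.ne L)⟩
    exact_mod_cast this
  by_cases hab : a ≤ b
  swap
  · rw [Finset.Ioc_eq_empty (by omega), Finset.sum_empty, norm_zero]
    have h1 : (0 : ℝ) ≤ 1 + Real.log L := by linarith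
    have h2 : 0 ≤ 4 * (L.divisors.card : ℝ) ^ 3 * (1 + Real.log L) *
        (X * k + (X : ℝ) ^ 2 * Real.sqrt (L.gcd c.natAbs) / Real.sqrt L + X * Real.sqrt L) := by
      positivity
    simpa using h2
  set J := X / k with hJ
  have hJ1 : 1 ≤ J := (Nat.one_le_div_iff (by omega)).2 hkX
  have hkJ : k * J ≤ X := Nat.mul_div_le X k
  have hXJ : X ≤ 2 * (k * J) := by
    have h1 : X < k * (J + 1) := by
      rw [hJ]
      exact Nat.lt_mul_div_succ X (by omega)
    have h2 : k ≤ k * J := Nat.le_mul_of_pos_right _ hJ1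
    rw [Nat.mul_add, Nat.mul_one] at h1
    omega
  set W : Finset ℤ := Finset.Ioc (a - k * J) b with hW
  set S := ∑ n ∈ Finset.Ioc a b, G n * KL L c (n + l0) with hS
  let t : ℕ → ℤ → ℂ := fun j n =>
    if a < n + k * j ∧ n + k * j ≤ b then KL L c (n + k * j + l0) else 0
  have hGk : ∀ (j : ℕ) (n : ℤ), G (n + k * j) = G n := by
    intro j
    induction j with
    | zero => intro n; simp
    | succ j ih =>
      intro n
      have e : n + k * ((j + 1 : ℕ) : ℤ) = (n + k * j) + k := by push_cast; ring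
      rw [e, hG, ih]
  have hshift : ∀ j ∈ Finset.Icc 1 J, S = ∑ n ∈ W, G n * t j n := by
    intro j hj
    rw [Finset.mem_Icc] at hj
    have hkj : (k : ℤ) * j ≤ k * J := by
      have : k * j ≤ k * J := Nat.mul_le_mul_left _ hj.2
      exact_mod_cast this
    have hkj0 : (0 : ℤ) ≤ k * j := by positivity
    have h1 : ∑ n ∈ W, G n * t j n =
        ∑ n ∈ W with (a < n + k * j ∧ n + k * j ≤ b), G n * KL L c (n + k * j + l0) := by
      rw [Finset.sum_filter]
      refine Finset.sum_congr rfl fun n _ => ?_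
      show G n * (if a < n + k * j ∧ n + k * j ≤ b then KL L c (n + k * j + l0) else 0) = _
      split_ifs
      · rfl
      · rw [mul_zero]
    rw [h1, hS]
    refine Finset.sum_nbij' (fun n => n - k * j) (fun n => n + k * j) ?_ ?_ ?_ ?_ ?_
    · intro n hn
      rw [Finset.mem_Ioc] at hn
      rw [Finset.mem_filter, hW, Finset.mem_Ioc]
      refine ⟨⟨by omega, by omega⟩, by omega, by omega⟩
    · intro n hn
      rw [Finset.mem_filter] at hn
      rw [Finset.mem_Ioc]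
      exact hn.2
    · intro n _; ring
    · intro n _; ring
    · intro n _
      have e1 : n - k * j + k * j + l0 = n + l0 := by ring
      have e2 : G n = G (n - k * j) := by
        have := hGk j (n - k * j)
        rwa [sub_add_cancel] at this
      rw [e1, ← e2]
  have hJS : (J : ℂ) * S = ∑ n ∈ W, G n * ∑ j ∈ Finset.Icc 1 J, t j n := by
    have h1 : (J : ℂ) * S = ∑ _j ∈ Finset.Icc 1 J, S := by
      rw [Finset.sum_const, Nat.card_Icc, nsmul_eq_mul, Nat.add_sub_cancel]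
    rw [h1, Finset.sum_congr rfl hshift, Finset.sum_comm]
    exact Finset.sum_congr rfl fun n _ => (Finset.mul_sum _ _ _).symm
  -- Cauchy-Schwarz
  have hWcard : (W.card : ℝ) ≤ 2 * X := by
    rw [hW, Int.card_Ioc]
    have h1 : b - (a - k * J) ≤ ((2 * X : ℕ) : ℤ) := by
      have : ((k * J : ℕ) : ℤ) ≤ X := by exact_mod_cast hkJ
      push_cast at this ⊢
      linarith
    have h2 : (b - (a - (k : ℤ) * J)).toNat ≤ 2 * X := by omega
    exact_mod_cast h2
  have hCS : ((J : ℝ) * ‖S‖) ^ 2 ≤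
      (2 * X) * ∑ n ∈ W, ‖∑ j ∈ Finset.Icc 1 J, t j n‖ ^ 2 := by
    have h1 : (J : ℝ) * ‖S‖ ≤ ∑ n ∈ W, ‖∑ j ∈ Finset.Icc 1 J, t j n‖ := by
      calc (J : ℝ) * ‖S‖ = ‖(J : ℂ) * S‖ := by rw [norm_mul, Complex.norm_natCast]
        _ ≤ _ := by
          rw [hJS]
          refine (norm_sum_le _ _).trans (Finset.sum_le_sum fun n _ => ?_)
          rw [norm_mul]
          exact mul_le_of_le_one_left (norm_nonneg _) (hG1 n)
    have h2 := sq_sum_le_card_mul_sum_sq (s := W)
      (f := fun n => ‖∑ j ∈ Finset.Icc 1 J, t j n‖)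
    calc ((J : ℝ) * ‖S‖) ^ 2 ≤ (∑ n ∈ W, ‖∑ j ∈ Finset.Icc 1 J, t j n‖) ^ 2 :=
          pow_le_pow_left₀ (by positivity) h1 2
      _ ≤ W.card * ∑ n ∈ W, ‖∑ j ∈ Finset.Icc 1 J, t j n‖ ^ 2 := h2
      _ ≤ _ := mul_le_mul_of_nonneg_right hWcard (Finset.sum_nonneg fun n _ => by positivity)
  -- the mean square
  have hmean : ∑ n ∈ W, ‖∑ j ∈ Finset.Icc 1 J, t j n‖ ^ 2 ≤
      ∑ j ∈ Finset.Icc 1 J, ∑ i ∈ Finset.Icc 1 J,
        ‖∑ n ∈ W, t j n * (starRingEnd ℂ) (t i n)‖ := by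
    have h1 : ((∑ n ∈ W, ‖∑ j ∈ Finset.Icc 1 J, t j n‖ ^ 2 : ℝ) : ℂ) =
        ∑ j ∈ Finset.Icc 1 J, ∑ i ∈ Finset.Icc 1 J,
          ∑ n ∈ W, t j n * (starRingEnd ℂ) (t i n) := by
      have h2 : ∀ n, ((‖∑ j ∈ Finset.Icc 1 J, t j n‖ ^ 2 : ℝ) : ℂ) =
          ∑ j ∈ Finset.Icc 1 J, ∑ i ∈ Finset.Icc 1 J, t j n * (starRingEnd ℂ) (t i n) := by
        intro n
        push_cast
        rw [← Complex.mul_conj', map_sum, Finset.sum_mul_sum]
      push_cast at h2 ⊢
      rw [Finset.sum_congr rfl fun n _ => h2 n, Finset.sum_comm]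
      exact Finset.sum_congr rfl fun j _ => Finset.sum_comm
    have h3 : ∑ n ∈ W, ‖∑ j ∈ Finset.Icc 1 J, t j n‖ ^ 2 =
        ‖((∑ n ∈ W, ‖∑ j ∈ Finset.Icc 1 J, t j n‖ ^ 2 : ℝ) : ℂ)‖ := by
      rw [Complex.norm_real, Real.norm_eq_abs, abs_of_nonneg
        (Finset.sum_nonneg fun n _ => by positivity)]
    rw [h3, h1]
    exact (norm_sum_le _ _).trans (Finset.sum_le_sum fun j _ => norm_sum_le _ _)
  set τ : ℝ := (L.divisors.card : ℝ) with hτ
  set gc : ℝ := Real.sqrt (L.gcd c.natAbs) with hgc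
  have hgc0 : 0 ≤ gc := Real.sqrt_nonneg _
  set P : ℝ := 4 ^ L.primeFactors.card * Real.sqrt L with hP
  have hP0 : 0 ≤ P := by positivity
  have hpair : ∀ j ∈ Finset.Icc 1 J, ∀ i ∈ Finset.Icc 1 J,
      ‖∑ n ∈ W, t j n * (starRingEnd ℂ) (t i n)‖ ≤ if j = i then (X : ℝ) else
        P * ((X : ℝ) / L * (gc * Real.sqrt (((i : ℤ) - j).natAbs.gcd L)) +
          τ * (1 + Real.log L)) := by
    intro j hj i hi
    rw [Finset.mem_Icc] at hj hi
    have hkj : (k : ℤ) * j ≤ k * J := by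
      have : k * j ≤ k * J := Nat.mul_le_mul_left _ hj.2
      exact_mod_cast this
    have hkj0 : (0 : ℤ) ≤ k * j := by positivity
    have h1 := vdc_pair hL X c l0 a b hab hX W (k * j) (k * i) (by
      intro n h2 h3
      rw [hW, Finset.mem_Ioc]
      constructor <;> omega)
    refine h1.trans ?_
    by_cases hji : j = i
    · rw [if_pos (by rw [hji]), if_pos hji]
    · have h2 : (k : ℤ) * j ≠ k * i := by
        intro h
        have h3 : (j : ℤ) = i := by
          have : (k : ℤ) ≠ 0 := by positivity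
          exact mul_left_cancel₀ this h
        exact hji (by exact_mod_cast h3)
      rw [if_neg h2, if_neg hji]
      refine mul_le_mul_of_nonneg_left ?_ hP0
      have h4 := gcd_mul_le L k hkL c ((i : ℤ) - j) hL1
      have e : c * (k * i - k * j) = c * (k * ((i : ℤ) - j)) := by ring
      rw [e]
      have h5 : 0 ≤ (X : ℝ) / L := by positivity
      have := mul_le_mul_of_nonneg_left h4 h5
      linarith
  have hrow : ∀ j ∈ Finset.Icc 1 J, ∑ i ∈ Finset.Icc 1 J,
      ‖∑ n ∈ W, t j n * (starRingEnd ℂ) (t i n)‖ ≤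
      X + P * ((X : ℝ) / L * gc * (2 * (J * τ)) + J * (τ * (1 + Real.log L))) := by
    intro j hj
    refine (Finset.sum_le_sum fun i hi => hpair j hj i hi).trans ?_
    rw [← Finset.add_sum_erase _ _ hj, if_pos rfl]
    refine add_le_add le_rfl ?_
    have h1 : ∀ i ∈ (Finset.Icc 1 J).erase j, (if j = i then (X : ℝ) else
        P * ((X : ℝ) / L * (gc * Real.sqrt (((i : ℤ) - j).natAbs.gcd L)) +
          τ * (1 + Real.log L))) =
        P * ((X : ℝ) / L * gc) * Real.sqrt (((i : ℤ) - j).natAbs.gcd L) +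
          P * (τ * (1 + Real.log L)) := by
      intro i hi
      rw [if_neg (fun h => (Finset.mem_erase.1 hi).1 h.symm)]
      ring
    rw [Finset.sum_congr rfl h1, Finset.sum_add_distrib, ← Finset.mul_sum, Finset.sum_const,
      nsmul_eq_mul]
    have h2 := pair_sum_le J (fun i => Real.sqrt (i.gcd L)) (fun i => Real.sqrt_nonneg _) j hj
    have h3 := sum_sqrt_gcd_le L J hL1
    have h4 : (((Finset.Icc 1 J).erase j).card : ℝ) ≤ J := by
      have : ((Finset.Icc 1 J).erase j).card ≤ (Finset.Icc 1 J).card := Finset.card_erase_le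
      rw [Nat.card_Icc, Nat.add_sub_cancel] at this
      exact_mod_cast this
    have h5 : 0 ≤ P * ((X : ℝ) / L * gc) := by positivity
    have h6 : 0 ≤ P * (τ * (1 + Real.log L)) := by positivity
    have h7 := mul_le_mul_of_nonneg_left (h2.trans (mul_le_mul_of_nonneg_left h3 (by norm_num :
      (0 : ℝ) ≤ 2))) h5
    have h8 := mul_le_mul_of_nonneg_right h4 h6
    calc _ ≤ P * ((X : ℝ) / L * gc) * (2 * (J * τ)) + J * (P * (τ * (1 + Real.log L))) :=
          add_le_add h7 h8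
      _ = _ := by ring
  have hmean2 : ∑ n ∈ W, ‖∑ j ∈ Finset.Icc 1 J, t j n‖ ^ 2 ≤
      J * (X + P * ((X : ℝ) / L * gc * (2 * (J * τ)) + J * (τ * (1 + Real.log L)))) := by
    refine hmean.trans ((Finset.sum_le_sum hrow).trans (le_of_eq ?_))
    rw [Finset.sum_const, Nat.card_Icc, Nat.add_sub_cancel, nsmul_eq_mul]
  have hX0 : (0 : ℝ) ≤ X := Nat.cast_nonneg X
  have hJ0 : (0 : ℝ) < J := by exact_mod_cast hJ1
  have hfin : ((J : ℝ) * ‖S‖) ^ 2 ≤ (2 * X) *
      (J * (X + P * ((X : ℝ) / L * gc * (2 * (J * τ)) + J * (τ * (1 + Real.log L))))) :=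
    hCS.trans (mul_le_mul_of_nonneg_left hmean2 (by positivity))
  have hS2 : ‖S‖ ^ 2 ≤ 2 * X * (X / J) + 2 * X * (P * ((X : ℝ) / L * gc * (2 * τ) +
      τ * (1 + Real.log L))) := by
    have h1 : ‖S‖ ^ 2 = ((J : ℝ) * ‖S‖) ^ 2 / (J : ℝ) ^ 2 := by field_simp
    rw [h1, div_le_iff₀ (by positivity)]
    refine hfin.trans (le_of_eq ?_)
    field_simp
  have hXk : (X : ℝ) / J ≤ 2 * k := by
    rw [div_le_iff₀ hJ0]
    have : (X : ℝ) ≤ ((2 * (k * J) : ℕ) : ℝ) := by exact_mod_cast hXJ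
    push_cast at this
    linarith
  have hP2 : P = τ ^ 2 * Real.sqrt L := by rw [hP, four_pow L hL]
  have hsq : Real.sqrt L * Real.sqrt L = L := Real.mul_self_sqrt hLr.le
  have hinv : Real.sqrt L / L = 1 / Real.sqrt L := by
    rw [div_eq_div_iff hLr.ne' hsL.ne']; linarith
  refine hS2.trans ?_
  have e1 : 2 * (X : ℝ) * (P * ((X : ℝ) / L * gc * (2 * τ) + τ * (1 + Real.log L))) =
      4 * τ ^ 3 * ((X : ℝ) ^ 2 * gc / Real.sqrt L) +
        2 * τ ^ 3 * (1 + Real.log L) * (X * Real.sqrt L) := by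
    have h2 : (X : ℝ) ^ 2 * gc / Real.sqrt L = X ^ 2 * gc * (Real.sqrt L / L) := by
      rw [hinv]; ring
    rw [h2, hP2]
    ring
  rw [e1]
  have hτ3 : (1 : ℝ) ≤ τ ^ 3 := one_le_pow₀ hτ1
  have hA : 2 * (X : ℝ) * (X / J) ≤ 4 * τ ^ 3 * (1 + Real.log L) * (X * k) := by
    have h1 : 2 * (X : ℝ) * (X / J) ≤ 4 * (X * k) := by
      have h0 := mul_le_mul_of_nonneg_left hXk (show (0 : ℝ) ≤ 2 * X from mul_nonneg zero_le_two hX0)
      linarith only [h0]
    have h2 : (1 : ℝ) ≤ τ ^ 3 * (1 + Real.log L) :=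
      one_le_mul_of_one_le_of_one_le hτ3 (le_add_of_nonneg_right (Real.log_natCast_nonneg L))
    have h3 : 0 ≤ (X : ℝ) * k := mul_nonneg hX0 (Nat.cast_nonneg k)
    have h4 := mul_le_mul_of_nonneg_right h2 h3
    linarith only [h1, h4]
  have hBd : 4 * τ ^ 3 * ((X : ℝ) ^ 2 * gc / Real.sqrt L) ≤
      4 * τ ^ 3 * (1 + Real.log L) * ((X : ℝ) ^ 2 * gc / Real.sqrt L) := by
    have h3 : 0 ≤ (X : ℝ) ^ 2 * gc / Real.sqrt L := by positivity
    have h4 : 0 ≤ τ ^ 3 * Real.log L * ((X : ℝ) ^ 2 * gc / Real.sqrt L) := by positivity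
    linarith only [h4]
  have hCd : 2 * τ ^ 3 * (1 + Real.log L) * (X * Real.sqrt L) ≤
      4 * τ ^ 3 * (1 + Real.log L) * (X * Real.sqrt L) := by
    have h3 : 0 ≤ τ ^ 3 * (1 + Real.log L) * (X * Real.sqrt L) := by positivity
    linarith only [h3]
  calc _ ≤ 4 * τ ^ 3 * (1 + Real.log L) * (X * k) +
        (4 * τ ^ 3 * (1 + Real.log L) * ((X : ℝ) ^ 2 * gc / Real.sqrt L) +
          4 * τ ^ 3 * (1 + Real.log L) * (X * Real.sqrt L)) := by linarith
    _ = _ := by ring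

end Pool.Agent.Inc
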