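import Pool.Agent.Inc.Num

set_option autoImplicit false

/-! Completion of sums over intervals. -/

namespace Pool.Agent.Inc

open Finset

variable {L : ℕ} [NeZero L]

/-- complete sums -/
noncomputable def fhat (f : ZMod L → ℂ) (h : ZMod L) : ℂ := ∑ x, f x * ZMod.stdAddChar (h * x)

theorem fhat_inv (f : ZMod L → ℂ) (y : ZMod L) :
    ∑ h, fhat f h * ZMod.stdAddChar (-(h * y)) = L * f y := by
  unfold fhat
  simp only [Finset.sum_mul]
  rw [Finset.sum_comm]
  have h1 : ∀ x : ZMod L, ∑ h : ZMod L, f x * ZMod.stdAddChar (h * x) *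
      ZMod.stdAddChar (-(h * y)) = if x = y then L * f y else 0 := by
    intro x
    have h2 : ∀ h : ZMod L, f x * ZMod.stdAddChar (h * x) * ZMod.stdAddChar (-(h * y)) =
        f x * ZMod.stdAddChar (h * (x - y)) := by
      intro h
      rw [mul_assoc, ← AddChar.map_add_eq_mul]
      congr 2
      ring
    rw [Finset.sum_congr rfl fun h _ => h2 h, ← Finset.mul_sum,
      AddChar.sum_mulShift (x - y) (ZMod.isPrimitive_stdAddChar L)]
    by_cases hxy : x = y
    · rw [if_pos (sub_eq_zero.2 hxy), if_pos hxy, ZMod.card, hxy]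
      push_cast; ring
    · rw [if_neg (sub_ne_zero.2 hxy), if_neg hxy]
      push_cast; ring
  rw [Finset.sum_congr rfl fun x _ => h1 x, Finset.sum_ite_eq' univ y, if_pos (mem_univ y)]

/-- geometric sums over intervals of integers -/
theorem geom_int (z : ℂ) (hz : z ≠ 0) (a b : ℤ) (hab : a ≤ b) :
    (∑ n ∈ Finset.Ioc a b, z ^ n) * (z - 1) = z ^ (b + 1) - z ^ (a + 1) := by
  induction b, hab using Int.le_induction with
  | base => simp
  | succ b hb ih =>
    have h1 : Finset.Ioc a (b + 1) = insert (b + 1) (Finset.Ioc a b) := by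
      ext x
      simp only [Finset.mem_Ioc, Finset.mem_insert]
      omega
    rw [h1, Finset.sum_insert (by simp), add_mul, ih, zpow_add_one₀ hz (b + 1)]
    ring

theorem sin_lower {t : ℝ} (h0 : 0 < t) (h1 : t < 1) :
    1 / Real.sin (Real.pi * t) ≤ (1 / t + 1 / (1 - t)) / 2 := by
  have hpi := Real.pi_pos
  have hs : 2 * min t (1 - t) ≤ Real.sin (Real.pi * t) := by
    rcases le_total t (1 / 2) with ht | ht
    · have h2 := Real.mul_le_sin (x := Real.pi * t) (by positivity) (by nlinarith)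
      have h3 : 2 / Real.pi * (Real.pi * t) = 2 * t := by field_simp
      rw [h3] at h2
      exact (mul_le_mul_of_nonneg_left (min_le_left _ _) (by norm_num)).trans h2
    · have h2 := Real.mul_le_sin (x := Real.pi * (1 - t)) (by
        apply mul_nonneg hpi.le; linarith) (by nlinarith)
      have h3 : 2 / Real.pi * (Real.pi * (1 - t)) = 2 * (1 - t) := by field_simp
      have h4 : Real.sin (Real.pi * (1 - t)) = Real.sin (Real.pi * t) := by
        rw [mul_sub, mul_one, Real.sin_pi_sub]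
      rw [h3, h4] at h2
      exact (mul_le_mul_of_nonneg_left (min_le_right _ _) (by norm_num)).trans h2
  have hmin : 0 < min t (1 - t) := lt_min h0 (by linarith)
  have hs0 : 0 < Real.sin (Real.pi * t) := lt_of_lt_of_le (by linarith) hs
  have h5 : 1 / Real.sin (Real.pi * t) ≤ 1 / (2 * min t (1 - t)) :=
    one_div_le_one_div_of_le (by linarith) hs
  refine h5.trans ?_
  have ht1 : 0 < 1 - t := by linarith
  rcases le_total t (1 - t) with ht | ht
  · rw [min_eq_left ht]
    have : 0 < 1 / (1 - t) := by positivity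
    have h6 : 1 / (2 * t) = (1 / t) / 2 := by field_simp
    rw [h6]; linarith
  · rw [min_eq_right ht]
    have : 0 < 1 / t := by positivity
    have h6 : 1 / (2 * (1 - t)) = (1 / (1 - t)) / 2 := by field_simp
    rw [h6]; linarith

/-- exponential sums over intervals -/
theorem interval_sum (h : ZMod L) (hh : h ≠ 0) (a b : ℤ) :
    ‖∑ n ∈ Finset.Ioc a b, (ZMod.stdAddChar (-(h * (n : ZMod L))) : ℂ)‖ ≤
      (L : ℝ) / 2 * (1 / (h.val : ℝ) + 1 / ((L : ℝ) - h.val)) := by
  have hL : (0 : ℝ) < L := by exact_mod_cast Nat.pos_of_ne_zero (NeZero.ne L)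
  have hv0 : 0 < h.val := Nat.pos_of_ne_zero (by rwa [Ne, ZMod.val_eq_zero])
  have hvL : h.val < L := ZMod.val_lt h
  have hv0' : (0 : ℝ) < h.val := by exact_mod_cast hv0
  have hvL' : (h.val : ℝ) < L := by exact_mod_cast hvL
  have hpos : 0 ≤ (L : ℝ) / 2 * (1 / (h.val : ℝ) + 1 / ((L : ℝ) - h.val)) := by
    have : 0 < (L : ℝ) - h.val := by linarith
    positivity
  by_cases hab : a ≤ b
  swap
  · rw [Finset.Ioc_eq_empty (by omega), Finset.sum_empty, norm_zero]
    exact hpos
  set z : ℂ := ZMod.stdAddChar (-h) with hz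
  have hzn : ∀ n : ℤ, (ZMod.stdAddChar (-(h * (n : ZMod L))) : ℂ) = z ^ n := by
    intro n
    rw [hz, ← AddChar.map_zsmul_eq_zpow]
    congr 1
    rw [zsmul_eq_mul]; ring
  have hz0 : z ≠ 0 := by
    have : ‖z‖ = 1 := AddChar.norm_apply _ _
    intro h0
    rw [h0, norm_zero] at this
    exact zero_ne_one this
  rw [Finset.sum_congr rfl fun n _ => hzn n]
  have hnorm : ∀ n : ℤ, ‖z ^ n‖ = 1 := fun n => by
    rw [norm_zpow, AddChar.norm_apply, one_zpow]
  have hg := geom_int z hz0 a b hab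
  -- the norm of z - 1
  have hz1 : ‖z - 1‖ = 2 * Real.sin (Real.pi * (h.val / L)) := by
    have h1 : z = Complex.exp (Complex.I * ((-(2 * Real.pi * (h.val / L)) : ℝ) : ℂ)) := by
      have h2 : (-h : ZMod L) = ((-(h.val : ℤ) : ℤ) : ZMod L) := by
        push_cast
        rw [ZMod.natCast_zmod_val]
      rw [hz, h2, ZMod.stdAddChar_coe]
      congr 1
      push_cast
      ring
    rw [h1, Complex.norm_exp_I_mul_ofReal_sub_one]
    have h3 : -(2 * Real.pi * (h.val / L)) / 2 = -(Real.pi * (h.val / L)) := by ring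
    rw [h3, Real.sin_neg, mul_neg, norm_neg, Real.norm_eq_abs, abs_of_nonneg]
    have h4 : 0 ≤ Real.sin (Real.pi * (h.val / L)) := by
      apply Real.sin_nonneg_of_nonneg_of_le_pi
      · positivity
      · have : (h.val : ℝ) / L ≤ 1 := by rw [div_le_one hL]; exact hvL'.le
        nlinarith [Real.pi_pos]
    positivity
  have ht0 : 0 < (h.val : ℝ) / L := by positivity
  have ht1 : (h.val : ℝ) / L < 1 := by rw [div_lt_one hL]; exact hvL'
  have hsin : 0 < Real.sin (Real.pi * (h.val / L)) := by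
    apply Real.sin_pos_of_pos_of_lt_pi
    · exact mul_pos Real.pi_pos ht0
    · nlinarith [Real.pi_pos]
  have hgn : ‖∑ n ∈ Finset.Ioc a b, z ^ n‖ * ‖z - 1‖ ≤ 2 := by
    rw [← norm_mul, hg]
    refine (norm_sub_le _ _).trans ?_
    rw [hnorm, hnorm]; norm_num
  rw [hz1] at hgn
  have h5 : ‖∑ n ∈ Finset.Ioc a b, z ^ n‖ ≤ 1 / Real.sin (Real.pi * (h.val / L)) := by
    rw [le_div_iff₀ hsin]
    linarith
  refine h5.trans ((sin_lower ht0 ht1).trans (le_of_eq ?_))
  have h6 : (L : ℝ) - h.val ≠ 0 := by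
    have : 0 < (L : ℝ) - h.val := by linarith
    exact this.ne'
  have h7 : 1 - (h.val : ℝ) / L = (L - h.val) / L := by field_simp
  rw [h7]
  field_simp

/-- Completion. -/
theorem compl (f : ZMod L → ℂ) (g : ℕ) (hg : g ∣ L) (B : ℝ) (hB0 : 0 ≤ B)
    (hB : ∀ h : ZMod L, ‖fhat f h‖ ≤ B * Real.sqrt (Nat.gcd h.val g)) (a b : ℤ) (hab : a ≤ b) :
    ‖∑ n ∈ Finset.Ioc a b, f (n : ZMod L)‖ ≤
      B * (((b : ℝ) - a) / L * Real.sqrt g + g.divisors.card * (1 + Real.log L)) := by
  have hL1 : 1 ≤ L := Nat.pos_of_ne_zero (NeZero.ne L)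
  have hL : (0 : ℝ) < L := by exact_mod_cast hL1
  have hg0 : 0 < g := Nat.pos_of_dvd_of_pos hg hL1
  have h1 : (L : ℂ) * ∑ n ∈ Finset.Ioc a b, f (n : ZMod L) =
      ∑ h : ZMod L, fhat f h *
        ∑ n ∈ Finset.Ioc a b, (ZMod.stdAddChar (-(h * (n : ZMod L))) : ℂ) := by
    rw [Finset.mul_sum]
    simp only [Finset.mul_sum]
    rw [Finset.sum_comm]
    exact Finset.sum_congr rfl fun n _ => (fhat_inv f n).symm
  have h2 : (L : ℝ) * ‖∑ n ∈ Finset.Ioc a b, f (n : ZMod L)‖ ≤
      ∑ h : ZMod L, ‖fhat f h‖ *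
        ‖∑ n ∈ Finset.Ioc a b, (ZMod.stdAddChar (-(h * (n : ZMod L))) : ℂ)‖ := by
    calc (L : ℝ) * ‖∑ n ∈ Finset.Ioc a b, f (n : ZMod L)‖
        = ‖(L : ℂ) * ∑ n ∈ Finset.Ioc a b, f (n : ZMod L)‖ := by
          rw [norm_mul, Complex.norm_natCast]
      _ ≤ _ := by
          rw [h1]
          refine (norm_sum_le _ _).trans (Finset.sum_le_sum fun h _ => ?_)
          rw [norm_mul]
  -- the zero frequency
  have hzero : ‖fhat f 0‖ * ‖∑ n ∈ Finset.Ioc a b,
      (ZMod.stdAddChar (-((0 : ZMod L) * (n : ZMod L))) : ℂ)‖ ≤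
      B * Real.sqrt g * ((b : ℝ) - a) := by
    have h3 := hB 0
    rw [ZMod.val_zero, Nat.gcd_zero_left] at h3
    have h4 : ‖∑ n ∈ Finset.Ioc a b,
        (ZMod.stdAddChar (-((0 : ZMod L) * (n : ZMod L))) : ℂ)‖ ≤ (b : ℝ) - a := by
      refine (norm_sum_le _ _).trans ?_
      simp only [AddChar.norm_apply, Finset.sum_const, nsmul_eq_mul, mul_one, Int.card_Ioc]
      have : ((b - a).toNat : ℝ) = (b : ℝ) - a := by
        have h5 : (((b - a).toNat : ℤ) : ℝ) = ((b - a : ℤ) : ℝ) := by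
          rw [Int.toNat_of_nonneg (by omega)]
        push_cast at h5
        exact_mod_cast h5
      rw [this]
    exact mul_le_mul h3 h4 (norm_nonneg _) (by positivity)
  -- the other frequencies
  have hrest : ∑ h ∈ (univ : Finset (ZMod L)).erase 0, ‖fhat f h‖ *
      ‖∑ n ∈ Finset.Ioc a b, (ZMod.stdAddChar (-(h * (n : ZMod L))) : ℂ)‖ ≤
      B * L * (g.divisors.card * (1 + Real.log L)) := by
    have h3 : ∀ h ∈ (univ : Finset (ZMod L)).erase 0, ‖fhat f h‖ *
        ‖∑ n ∈ Finset.Ioc a b, (ZMod.stdAddChar (-(h * (n : ZMod L))) : ℂ)‖ ≤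
        B * L / 2 * (Real.sqrt (Nat.gcd h.val g) / (h.val : ℝ) +
          Real.sqrt (Nat.gcd h.val g) / ((L : ℝ) - h.val)) := by
      intro h hh
      have hh0 := (Finset.mem_erase.1 hh).1
      refine (mul_le_mul (hB h) (interval_sum h hh0 a b) (norm_nonneg _)
        (by positivity)).trans (le_of_eq ?_)
      ring
    refine (Finset.sum_le_sum h3).trans ?_
    -- reindex by the values
    have h4 : ∑ h ∈ (univ : Finset (ZMod L)).erase 0, B * L / 2 *
        (Real.sqrt (Nat.gcd h.val g) / (h.val : ℝ) +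
          Real.sqrt (Nat.gcd h.val g) / ((L : ℝ) - h.val)) =
        ∑ v ∈ Finset.Icc 1 (L - 1), B * L / 2 * (Real.sqrt (Nat.gcd v g) / (v : ℝ) +
          Real.sqrt (Nat.gcd v g) / ((L : ℝ) - v)) := by
      refine Finset.sum_bij' (fun h _ => h.val) (fun v _ => (v : ZMod L)) ?_ ?_ ?_ ?_ ?_
      · intro h hh
        have hh0 := (Finset.mem_erase.1 hh).1
        have hv0 : 0 < h.val := Nat.pos_of_ne_zero (by rwa [Ne, ZMod.val_eq_zero])
        have hvL : h.val < L := ZMod.val_lt h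
        rw [Finset.mem_Icc]; omega
      · intro v hv
        rw [Finset.mem_Icc] at hv
        rw [Finset.mem_erase]
        refine ⟨fun h0 => ?_, mem_univ _⟩
        have h5 : (v : ZMod L).val = v := ZMod.val_cast_of_lt (by omega)
        rw [h0, ZMod.val_zero] at h5
        omega
      · intro h _
        exact ZMod.natCast_zmod_val h
      · intro v hv
        rw [Finset.mem_Icc] at hv
        exact ZMod.val_cast_of_lt (by omega)
      · intro h _; rfl
    rw [h4, ← Finset.mul_sum, Finset.sum_add_distrib]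
    have h5 : ∑ v ∈ Finset.Icc 1 (L - 1), Real.sqrt (Nat.gcd v g) / ((L : ℝ) - v) =
        ∑ v ∈ Finset.Icc 1 (L - 1), Real.sqrt (Nat.gcd v g) / (v : ℝ) := by
      refine Finset.sum_bij' (fun v _ => L - v) (fun v _ => L - v) ?_ ?_ ?_ ?_ ?_
      · intro v hv; rw [Finset.mem_Icc] at hv ⊢; omega
      · intro v hv; rw [Finset.mem_Icc] at hv ⊢; omega
      · intro v hv; rw [Finset.mem_Icc] at hv; omega
      · intro v hv; rw [Finset.mem_Icc] at hv; omega
      · intro v hv
        rw [Finset.mem_Icc] at hv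
        have h6 : Nat.gcd (L - v) g = Nat.gcd v g := by
          obtain ⟨m, hm⟩ := hg
          apply Nat.dvd_antisymm
          · apply Nat.dvd_gcd _ (Nat.gcd_dvd_right _ _)
            have h7 : Nat.gcd (L - v) g ∣ L := (Nat.gcd_dvd_right _ _).trans ⟨m, hm⟩
            have h8 : Nat.gcd (L - v) g ∣ L - v := Nat.gcd_dvd_left _ _
            have h9 := Nat.dvd_sub h7 h8
            have h10 : L - (L - v) = v := by omega
            rwa [h10] at h9
          · apply Nat.dvd_gcd _ (Nat.gcd_dvd_right _ _)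
            have h7 : Nat.gcd v g ∣ L := (Nat.gcd_dvd_right _ _).trans ⟨m, hm⟩
            exact Nat.dvd_sub h7 (Nat.gcd_dvd_left _ _)
        rw [h6, Nat.cast_sub (by omega)]
    rw [h5]
    have h6 : ∑ v ∈ Finset.Icc 1 (L - 1), Real.sqrt (Nat.gcd v g) / (v : ℝ) ≤
        ∑ v ∈ Finset.Icc 1 L, Real.sqrt (Nat.gcd v g) / (v : ℝ) :=
      Finset.sum_le_sum_of_subset_of_nonneg
        (Finset.Icc_subset_Icc_right (by omega)) fun v _ _ => by positivity
    have h7 := sum_sqrt_gcd_div_le g L hg0 hL1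
    have h8 : 0 ≤ B * L / 2 := by positivity
    nlinarith [mul_le_mul_of_nonneg_left (h6.trans h7) h8]
  rw [← Finset.add_sum_erase _ _ (mem_univ (0 : ZMod L))] at h2
  have h9 : (L : ℝ) * ‖∑ n ∈ Finset.Ioc a b, f (n : ZMod L)‖ ≤
      B * Real.sqrt g * ((b : ℝ) - a) + B * L * (g.divisors.card * (1 + Real.log L)) :=
    h2.trans (add_le_add hzero hrest)
  have h10 : ‖∑ n ∈ Finset.Ioc a b, f (n : ZMod L)‖ ≤
      (B * Real.sqrt g * ((b : ℝ) - a) + B * L * (g.divisors.card * (1 + Real.log L))) / L := by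
    rw [le_div_iff₀ hL]; linarith
  refine h10.trans (le_of_eq ?_)
  field_simp

end Pool.Agent.Inc
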