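import Pool.Agent.Inc.Compl
import Pool.Agent.Weil.Sqf

set_option autoImplicit false

/-! Incomplete Kloosterman sums for squarefree moduli. -/

namespace Pool.Agent.Inc

open Finset Pool.Agent.Weil

variable {L : ℕ} [NeZero L]

open Classical in
/-- `1_((x,L)=1) e_L(c / x)` on residue classes -/
noncomputable def kl (c : ℤ) (x : ZMod L) : ℂ :=
  if IsUnit x then ZMod.stdAddChar ((c : ZMod L) * x⁻¹) else 0

/-- `1_((n,L)=1) e_L(c / n)` -/
noncomputable def KL (L : ℕ) [NeZero L] (c n : ℤ) : ℂ := kl (L := L) c (n : ZMod L)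

theorem kl_norm_le (c : ℤ) (x : ZMod L) : ‖kl c x‖ ≤ 1 := by
  classical
  unfold kl
  split_ifs
  · rw [AddChar.norm_apply]
  · simp

theorem KL_norm_le (c n : ℤ) : ‖KL L c n‖ ≤ 1 := kl_norm_le _ _

theorem card_divisors_sqf (n : ℕ) (hn : Squarefree n) :
    n.divisors.card = 2 ^ n.primeFactors.card := by
  rw [Nat.card_divisors hn.ne_zero, Finset.prod_congr rfl (g := fun _ => 2), Finset.prod_const]
  intro p hp
  have h1 : n.factorization p ≤ 1 := hn.natFactorization_le_one p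
  have h2 : 0 < n.factorization p :=
    (Nat.prime_of_mem_primeFactors hp).factorization_pos_of_dvd hn.ne_zero
      (Nat.dvd_of_mem_primeFactors hp)
  omega

theorem four_pow (n : ℕ) (hn : Squarefree n) :
    (4 : ℝ) ^ n.primeFactors.card = (n.divisors.card : ℝ) ^ 2 := by
  rw [card_divisors_sqf n hn]
  push_cast
  rw [← pow_mul, mul_comm, pow_mul]
  norm_num

theorem card_divisors_le {g n : ℕ} (h : g ∣ n) (hn : n ≠ 0) : g.divisors.card ≤ n.divisors.card :=
  Finset.card_le_card (Nat.divisors_subset_of_dvd hn h)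

theorem fhat_diff (c b : ℤ) (h : ZMod L) :
    fhat (fun x : ZMod L => kl c x * (starRingEnd ℂ) (kl c (x + (b : ZMod L)))) h =
      twoSum L ZMod.stdAddChar c (-c) b (h.val : ℤ) := by
  classical
  unfold fhat twoSum
  rw [Finset.sum_filter]
  refine Finset.sum_congr rfl fun x _ => ?_
  beta_reduce
  unfold kl
  by_cases h1 : IsUnit x
  · by_cases h2 : IsUnit (x + (b : ZMod L))
    · rw [if_pos h1, if_pos h2, if_pos ⟨h1, h2⟩, ← AddChar.map_neg_eq_conj,
        ← AddChar.map_add_eq_mul, ← AddChar.map_add_eq_mul]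
      congr 1
      push_cast
      rw [ZMod.natCast_zmod_val]
      ring
    · rw [if_neg h2, if_neg (fun hc : IsUnit x ∧ IsUnit (x + (b : ZMod L)) => h2 hc.2), map_zero,
        mul_zero, zero_mul]
  · rw [if_neg h1, if_neg (fun hc : IsUnit x ∧ IsUnit (x + (b : ZMod L)) => h1 hc.1), zero_mul,
      zero_mul]

theorem fhat_kl (c : ℤ) (h : ZMod L) :
    fhat (fun x : ZMod L => kl c x) h = twoSum L ZMod.stdAddChar c 0 0 (h.val : ℤ) := by
  classical
  unfold fhat twoSum
  rw [Finset.sum_filter]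
  refine Finset.sum_congr rfl fun x _ => ?_
  beta_reduce
  unfold kl
  by_cases h1 : IsUnit x
  · rw [if_pos h1, if_pos ⟨h1, by simpa using h1⟩, ← AddChar.map_add_eq_mul]
    congr 1
    push_cast
    rw [ZMod.natCast_zmod_val]
    ring
  · rw [if_neg h1, if_neg (fun hc => h1 (And.left hc)), zero_mul]

theorem fhat_diff_le (hL : Squarefree L) (c b : ℤ) (h : ZMod L) :
    ‖fhat (fun x : ZMod L => kl c x * (starRingEnd ℂ) (kl c (x + (b : ZMod L)))) h‖ ≤
      (4 ^ L.primeFactors.card * Real.sqrt L) *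
        Real.sqrt (Nat.gcd h.val (L.gcd (c * b).natAbs)) := by
  rw [fhat_diff]
  have h1 := sqf_bound L hL ZMod.stdAddChar (ZMod.isPrimitive_stdAddChar L) c (-c) b (h.val : ℤ)
    (Nat.gcd h.val (L.gcd (c * b).natAbs)) (by
      rintro p hp hpL ⟨h2, -, h4⟩
      refine Nat.dvd_gcd (by exact_mod_cast h2) (Nat.dvd_gcd hpL ?_)
      rw [← Int.natCast_dvd]
      rcases h4 with h4 | h4
      · exact Dvd.dvd.mul_left h4 c
      · exact Dvd.dvd.mul_right h4 b)
  have h5 : L.gcd (Nat.gcd h.val (L.gcd (c * b).natAbs)) =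
      Nat.gcd h.val (L.gcd (c * b).natAbs) := by
    rw [Nat.gcd_comm]
    exact Nat.gcd_eq_left ((Nat.gcd_dvd_right _ _).trans (Nat.gcd_dvd_left _ _))
  rwa [h5] at h1

theorem fhat_kl_le (hL : Squarefree L) (c : ℤ) (h : ZMod L) :
    ‖fhat (fun x : ZMod L => kl c x) h‖ ≤
      (4 ^ L.primeFactors.card * Real.sqrt L) * Real.sqrt (Nat.gcd h.val (L.gcd c.natAbs)) := by
  rw [fhat_kl]
  have h1 := sqf_bound L hL ZMod.stdAddChar (ZMod.isPrimitive_stdAddChar L) c 0 0 (h.val : ℤ)
    (Nat.gcd h.val (L.gcd c.natAbs)) (by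
      rintro p hp hpL ⟨h2, h3, -⟩
      refine Nat.dvd_gcd (by exact_mod_cast h2) (Nat.dvd_gcd hpL ?_)
      rw [← Int.natCast_dvd]
      simpa using h3)
  have h5 : L.gcd (Nat.gcd h.val (L.gcd c.natAbs)) =
      Nat.gcd h.val (L.gcd c.natAbs) := by
    rw [Nat.gcd_comm]
    exact Nat.gcd_eq_left ((Nat.gcd_dvd_right _ _).trans (Nat.gcd_dvd_left _ _))
  rwa [h5] at h1

/-- Incomplete Kloosterman sums. -/
theorem inc_kloosterman (hL : Squarefree L) (c a b : ℤ) (hab : a ≤ b) :
    ‖∑ n ∈ Finset.Ioc a b, KL L c n‖ ≤ 4 ^ L.primeFactors.card * Real.sqrt L *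
      (((b : ℝ) - a) / L * Real.sqrt (L.gcd c.natAbs) + L.divisors.card * (1 + Real.log L)) := by
  have hL0 : L ≠ 0 := NeZero.ne L
  have h1 := compl (fun x : ZMod L => kl c x) (L.gcd c.natAbs) (Nat.gcd_dvd_left _ _)
    (4 ^ L.primeFactors.card * Real.sqrt L) (by positivity) (fhat_kl_le hL c) a b hab
  refine h1.trans ?_
  have h2 : ((L.gcd c.natAbs).divisors.card : ℝ) ≤ L.divisors.card := by
    exact_mod_cast card_divisors_le (Nat.gcd_dvd_left _ _) hL0
  have h3 : 0 ≤ Real.log L := Real.log_natCast_nonneg L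
  have h4 : ((L.gcd c.natAbs).divisors.card : ℝ) * (1 + Real.log L) ≤
      L.divisors.card * (1 + Real.log L) := mul_le_mul_of_nonneg_right h2 (by linarith)
  exact mul_le_mul_of_nonneg_left (by linarith) (by positivity)

/-- Incomplete sums of the differences. -/
theorem inc_diff (hL : Squarefree L) (c d a b : ℤ) (hab : a ≤ b) :
    ‖∑ n ∈ Finset.Ioc a b, KL L c n * (starRingEnd ℂ) (KL L c (n + d))‖ ≤
      4 ^ L.primeFactors.card * Real.sqrt L *
      (((b : ℝ) - a) / L * Real.sqrt (L.gcd (c * d).natAbs) +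
        L.divisors.card * (1 + Real.log L)) := by
  have hL0 : L ≠ 0 := NeZero.ne L
  have h1 := compl (fun x : ZMod L => kl c x * (starRingEnd ℂ) (kl c (x + (d : ZMod L))))
    (L.gcd (c * d).natAbs) (Nat.gcd_dvd_left _ _)
    (4 ^ L.primeFactors.card * Real.sqrt L) (by positivity) (fhat_diff_le hL c d) a b hab
  have h0 : ∑ n ∈ Finset.Ioc a b, KL L c n * (starRingEnd ℂ) (KL L c (n + d)) =
      ∑ n ∈ Finset.Ioc a b, (fun x : ZMod L => kl c x *
        (starRingEnd ℂ) (kl c (x + (d : ZMod L)))) (n : ZMod L) := by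
    refine Finset.sum_congr rfl fun n _ => ?_
    unfold KL
    push_cast
    rfl
  rw [h0]
  refine h1.trans ?_
  have h2 : ((L.gcd (c * d).natAbs).divisors.card : ℝ) ≤ L.divisors.card := by
    exact_mod_cast card_divisors_le (Nat.gcd_dvd_left _ _) hL0
  have h3 : 0 ≤ Real.log L := Real.log_natCast_nonneg L
  have h4 : ((L.gcd (c * d).natAbs).divisors.card : ℝ) * (1 + Real.log L) ≤
      L.divisors.card * (1 + Real.log L) := mul_le_mul_of_nonneg_right h2 (by linarith)
  exact mul_le_mul_of_nonneg_left (by linarith) (by positivity)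

end Pool.Agent.Inc
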