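import Mathlib

set_option autoImplicit false

/-! Elementary sums of gcd's. -/

namespace Pool.Agent.Inc

open Finset

theorem sqrt_gcd_le (g v : ℕ) (hg : 0 < g) :
    Real.sqrt (Nat.gcd v g) ≤ ∑ d ∈ g.divisors with d ∣ v, Real.sqrt d := by
  refine Finset.single_le_sum (f := fun d : ℕ => Real.sqrt d) (fun d _ => Real.sqrt_nonneg _) ?_
  rw [mem_filter, Nat.mem_divisors]
  exact ⟨⟨Nat.gcd_dvd_right _ _, by omega⟩, Nat.gcd_dvd_left _ _⟩

theorem inv_sqrt_le_one (d : ℕ) (hd : 1 ≤ d) : Real.sqrt d / d ≤ 1 := by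
  have hd' : (1 : ℝ) ≤ d := by exact_mod_cast hd
  rw [div_le_one (by linarith)]
  calc Real.sqrt d ≤ Real.sqrt (d ^ 2) := Real.sqrt_le_sqrt (by nlinarith)
    _ = d := Real.sqrt_sq (by linarith)

/-- `∑_{1 ≤ v ≤ J} sqrt (gcd v g) ≤ J τ(g)` -/
theorem sum_sqrt_gcd_le (g J : ℕ) (hg : 0 < g) :
    ∑ v ∈ Finset.Icc 1 J, Real.sqrt (Nat.gcd v g) ≤ J * g.divisors.card := by
  calc ∑ v ∈ Finset.Icc 1 J, Real.sqrt (Nat.gcd v g)
      ≤ ∑ v ∈ Finset.Icc 1 J, ∑ d ∈ g.divisors with d ∣ v, Real.sqrt d :=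
        Finset.sum_le_sum fun v _ => sqrt_gcd_le g v hg
    _ = ∑ d ∈ g.divisors, ∑ v ∈ Finset.Icc 1 J with d ∣ v, Real.sqrt d := by
        simp only [Finset.sum_filter]
        rw [Finset.sum_comm]
    _ ≤ ∑ d ∈ g.divisors, (J : ℝ) := by
        refine Finset.sum_le_sum fun d hd => ?_
        have hd1 : 1 ≤ d := Nat.pos_of_mem_divisors hd
        rw [Finset.sum_const, nsmul_eq_mul]
        have h1 : (Finset.Icc 1 J).filter (fun v => d ∣ v) = (Finset.Ioc 0 J).filter fun v => d ∣ v := by
          rfl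
        have h2 : ((Finset.Icc 1 J).filter fun v => d ∣ v).card = J / d := by
          rw [h1, Nat.Ioc_filter_dvd_card_eq_div]
        rw [h2]
        have h3 : ((J / d : ℕ) : ℝ) ≤ J / d := Nat.cast_div_le
        have h4 := inv_sqrt_le_one d hd1
        calc ((J / d : ℕ) : ℝ) * Real.sqrt d ≤ (J / d : ℝ) * Real.sqrt d :=
              mul_le_mul_of_nonneg_right h3 (Real.sqrt_nonneg _)
          _ = J * (Real.sqrt d / d) := by ring
          _ ≤ J * 1 := mul_le_mul_of_nonneg_left h4 (by positivity)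
          _ = J := mul_one _
    _ = J * g.divisors.card := by rw [Finset.sum_const, nsmul_eq_mul, mul_comm]

theorem harm_le (n : ℕ) : ∑ v ∈ Finset.Icc 1 n, (1 : ℝ) / v ≤ 1 + Real.log n := by
  have h := harmonic_le_one_add_log n
  rw [harmonic_eq_sum_Icc] at h
  push_cast at h
  simpa using h

/-- `∑_{1 ≤ v ≤ n} sqrt (gcd v g) / v ≤ τ(g) (1 + log n)` -/
theorem sum_sqrt_gcd_div_le (g n : ℕ) (hg : 0 < g) (hn : 1 ≤ n) :
    ∑ v ∈ Finset.Icc 1 n, Real.sqrt (Nat.gcd v g) / v ≤ g.divisors.card * (1 + Real.log n) := by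
  have hlog : 0 ≤ Real.log n := Real.log_natCast_nonneg n
  calc ∑ v ∈ Finset.Icc 1 n, Real.sqrt (Nat.gcd v g) / v
      ≤ ∑ v ∈ Finset.Icc 1 n, ∑ d ∈ g.divisors with d ∣ v, Real.sqrt d / v := by
        refine Finset.sum_le_sum fun v hv => ?_
        rw [← Finset.sum_div]
        have hv1 := (Finset.mem_Icc.1 hv).1
        have : (0 : ℝ) < v := by exact_mod_cast hv1
        rw [div_le_div_iff_of_pos_right this]
        exact sqrt_gcd_le g v hg
    _ = ∑ d ∈ g.divisors, ∑ v ∈ Finset.Icc 1 n with d ∣ v, Real.sqrt d / v := by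
        simp only [Finset.sum_filter]
        rw [Finset.sum_comm]
    _ ≤ ∑ d ∈ g.divisors, (1 + Real.log n) := by
        refine Finset.sum_le_sum fun d hd => ?_
        have hd1 : 1 ≤ d := Nat.pos_of_mem_divisors hd
        have hd0 : (0 : ℝ) < d := by exact_mod_cast hd1
        have h1 : ∑ v ∈ Finset.Icc 1 n with d ∣ v, Real.sqrt d / v ≤
            ∑ w ∈ Finset.Icc 1 n, (Real.sqrt d / d) * (1 / w) := by
          have h2 : (Finset.Icc 1 n).filter (fun v => d ∣ v) ⊆
              (Finset.Icc 1 n).image fun w => d * w := by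
            intro v hv
            rw [mem_filter, Finset.mem_Icc] at hv
            obtain ⟨⟨h3, h4⟩, w, rfl⟩ := hv
            rw [mem_image]
            refine ⟨w, ?_, rfl⟩
            rw [Finset.mem_Icc]
            constructor
            · by_contra h
              have : w = 0 := by omega
              subst this
              simp at h3
            · calc w = 1 * w := (one_mul w).symm
                _ ≤ d * w := Nat.mul_le_mul_right _ hd1
                _ ≤ n := h4
          refine (Finset.sum_le_sum_of_subset_of_nonneg h2 fun v _ _ => by positivity).trans ?_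
          rw [Finset.sum_image (fun w _ w' _ h => Nat.eq_of_mul_eq_mul_left (by omega) h)]
          refine Finset.sum_le_sum fun w hw => le_of_eq ?_
          have : (0 : ℝ) < w := by exact_mod_cast (Finset.mem_Icc.1 hw).1
          push_cast
          field_simp
        refine h1.trans ?_
        rw [← Finset.mul_sum]
        have h5 := inv_sqrt_le_one d hd1
        have h6 := harm_le n
        have h7 : 0 ≤ ∑ w ∈ Finset.Icc 1 n, (1 : ℝ) / w := Finset.sum_nonneg fun _ _ => by positivity
        nlinarith [div_nonneg (Real.sqrt_nonneg (d : ℝ)) hd0.le]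
    _ = g.divisors.card * (1 + Real.log n) := by rw [Finset.sum_const, nsmul_eq_mul]

end Pool.Agent.Inc
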